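import Mathlib

/-!
# MP_5de915_nt: rows of the affine-orbit array (helper64)

`Br l x y`: the point `(x, y)` is `S^{i_l} G S^{i_{l-1}} G ... G S^{i_0} (1, 1)` with `l` factors `G`.
-/

set_option autoImplicit false

namespace Pool.Agent.Helper64.Breadth

/-- `Br l x y`: `(x, y)` is obtained from `(1, 1)` by a word in `G` and `S` with exactly `l`
letters `G`, where `G (x, y) = (x + y, y)` and `S (x, y) = (3 x - 2 y + 1, 2 x - y + 1)`. -/
inductive Br : ℕ → ℤ → ℤ → Prop
  | base : Br 0 1 1
  | G {l : ℕ} {x y : ℤ} : Br l x y → Br (l + 1) (x + y) y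
  | S {l : ℕ} {x y : ℤ} : Br l x y → Br l (3 * x - 2 * y + 1) (2 * x - y + 1)

/-- The number of elements of row `n` of breadth exactly `3`. -/
noncomputable def c (n : ℕ) : ℕ := Nat.card {k : ℤ // Br 3 n k}

theorem Br.bounds {l : ℕ} {x y : ℤ} (h : Br l x y) : 1 ≤ y ∧ y ≤ x := by
  induction h with
  | base => simp
  | G _ ih => omega
  | S _ ih => omega

theorem Br.pow {l : ℕ} {x y : ℤ} (h : Br l x y) (i : ℕ) :
    Br l (x + i * (2 * (x - y) + 1)) (y + i * (2 * (x - y) + 1)) := by
  induction i with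
  | zero => simpa using h
  | succ i ih =>
    have := ih.S
    convert this using 1 <;> push_cast <;> ring

theorem Br.diag (j : ℕ) (hj : 1 ≤ j) : Br 0 j j := by
  obtain ⟨i, rfl⟩ : ∃ i, j = i + 1 := ⟨j - 1, by omega⟩
  have := Br.base.pow i
  convert this using 1 <;> push_cast <;> ring

/-- the family of elements of breadth three -/
theorem Br.three {n j : ℕ} (hj : 1 ≤ j) (h : 6 * j + 1 ∣ 3 * n + 2) : Br 3 n ((n : ℤ) - 3 * j) := by
  obtain ⟨e, he⟩ := h
  have h1 : e % 3 = 2 := by
    have : (3 * n + 2) % 3 = ((6 * j + 1) * e) % 3 := by rw [he]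
    rw [Nat.mul_mod] at this
    have h2 : (6 * j + 1) % 3 = 1 := by omega
    rw [h2] at this
    omega
  obtain ⟨i, hi⟩ : ∃ i, e = 3 * i + 2 := ⟨e / 3, by omega⟩
  subst hi
  have h3 : (3 * (n : ℤ) + 2) = (6 * j + 1) * (3 * i + 2) := by exact_mod_cast he
  have h4 := ((((Br.diag j hj).G).G).G).pow i
  convert h4 using 1
  · nlinarith
  · nlinarith

theorem finite_row (n : ℕ) : {k : ℤ | Br 3 n k}.Finite := by
  refine (Set.finite_Icc (1 : ℤ) n).subset ?_
  intro k hk
  exact Set.mem_Icc.2 hk.bounds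

/-- the divisors of `3 n + 2` that are `1` modulo `6` -/
def dv (n : ℕ) : Finset ℕ := (3 * n + 2).divisors.filter (fun d => d % 6 = 1)

theorem card_dv_le (n : ℕ) : (dv n).card ≤ c n + 1 := by
  have hfin := finite_row n
  have h1 : ((dv n).erase 1).card ≤ c n := by
    have e1 : c n = hfin.toFinset.card := by
      rw [c, ← Set.ncard_eq_toFinset_card _ hfin]
      rfl
    rw [e1]
    refine Finset.card_le_card_of_injOn (fun d => (n : ℤ) - 3 * ((d / 6 : ℕ) : ℤ)) ?_ ?_
    · intro d hd
      rw [Finset.mem_coe, Finset.mem_erase, dv, Finset.mem_filter, Nat.mem_divisors] at hd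
      obtain ⟨h1, ⟨h2, -⟩, h3⟩ := hd
      rw [Finset.mem_coe, Set.Finite.mem_toFinset]
      have h4 : 6 * (d / 6) + 1 = d := by omega
      exact Br.three (j := d / 6) (by omega) (by rw [h4]; exact h2)
    · intro d hd d' hd' h
      rw [Finset.mem_coe, Finset.mem_erase, dv, Finset.mem_filter] at hd hd'
      dsimp only at h
      omega
  have h2 := Finset.pred_card_le_card_erase (s := dv n) (a := 1)
  omega

/-- the odd primes dividing `3 n + 2` -/
def op (n : ℕ) : Finset ℕ := (3 * n + 2).primeFactors.erase 2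

theorem mem_op {n p : ℕ} : p ∈ op n ↔ p ≠ 2 ∧ p.Prime ∧ p ∣ 3 * n + 2 := by
  rw [op, Finset.mem_erase, Nat.mem_primeFactors]
  constructor
  · rintro ⟨h1, h2, h3, -⟩; exact ⟨h1, h2, h3⟩
  · rintro ⟨h1, h2, h3⟩; exact ⟨h1, h2, h3, by omega⟩

theorem op_mod {n p : ℕ} (h : p ∈ op n) : p % 6 = 1 ∨ p % 6 = 5 := by
  obtain ⟨h1, h2, h3⟩ := mem_op.1 h
  have h4 : p % 2 = 1 := h2.eq_two_or_odd.resolve_left h1
  have h5 : p % 3 ≠ 0 := by
    intro h6
    have h7 : 3 ∣ 3 * n + 2 := (Nat.dvd_of_mod_eq_zero h6).trans h3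
    omega
  omega

theorem prod_mod {n : ℕ} {T : Finset ℕ} (hT : T ⊆ op n) :
    (∏ p ∈ T, p) % 6 = 1 ∨ (∏ p ∈ T, p) % 6 = 5 := by
  induction T using Finset.induction_on with
  | empty => simp
  | @insert a s ha ih =>
    rw [Finset.prod_insert ha]
    have h1 := ih (fun x hx => hT (Finset.mem_insert_of_mem hx))
    have h2 := op_mod (hT (Finset.mem_insert_self a s))
    rw [Nat.mul_mod]
    rcases h1 with h1 | h1 <;> rcases h2 with h2 | h2 <;> rw [h1, h2] <;> simp

theorem prod_dvd {n : ℕ} {T : Finset ℕ} (hT : T ⊆ op n) : (∏ p ∈ T, p) ∣ 3 * n + 2 := by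
  refine (Finset.prod_dvd_prod_of_subset T _ _ (hT.trans (Finset.erase_subset _ _))).trans ?_
  exact Nat.prod_primeFactors_dvd _

theorem prod_inj {n : ℕ} {T T' : Finset ℕ} (hT : T ⊆ op n) (hT' : T' ⊆ op n)
    (h : ∏ p ∈ T, p = ∏ p ∈ T', p) : T = T' := by
  have e1 : ∀ {T : Finset ℕ}, T ⊆ op n → (∏ p ∈ T, p).primeFactors = T := by
    intro T hT
    exact Nat.primeFactors_prod fun p hp => (mem_op.1 (hT hp)).2.1
  rw [← e1 hT, ← e1 hT', h]

/-- many prime factors give many divisors in the class `1` modulo `6` -/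
theorem pow_le_card_dv (n : ℕ) : 2 ^ ((op n).card - 1) ≤ (dv n).card := by
  classical
  rcases (op n).eq_empty_or_nonempty with h0 | h0
  · rw [h0]
    simp only [Finset.card_empty, Nat.zero_sub, pow_zero]
    refine Finset.card_pos.2 ⟨1, ?_⟩
    rw [dv, Finset.mem_filter, Nat.mem_divisors]
    exact ⟨⟨one_dvd _, by omega⟩, rfl⟩
  · obtain ⟨q, hq, hq'⟩ : ∃ q ∈ op n, q % 6 = 5 ∨ ∀ p ∈ op n, p % 6 = 1 := by
      by_cases h : ∃ q ∈ op n, q % 6 = 5
      · obtain ⟨q, h1, h2⟩ := h
        exact ⟨q, h1, Or.inl h2⟩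
      · push Not at h
        obtain ⟨q, hq⟩ := h0
        refine ⟨q, hq, Or.inr fun p hp => ?_⟩
        rcases op_mod hp with h1 | h1
        · exact h1
        · exact absurd h1 (h p hp)
    have h1 : ((op n).erase q).powerset.card = 2 ^ ((op n).card - 1) := by
      rw [Finset.card_powerset, Finset.card_erase_of_mem hq]
    rw [← h1]
    set φ : Finset ℕ → Finset ℕ := fun T => if (∏ p ∈ T, p) % 6 = 1 then T else insert q T with hφ
    have hsub : ∀ T ∈ ((op n).erase q).powerset, φ T ⊆ op n := by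
      intro T hT
      rw [Finset.mem_powerset] at hT
      have h2 : T ⊆ op n := hT.trans (Finset.erase_subset _ _)
      simp only [hφ]
      split_ifs
      · exact h2
      · exact Finset.insert_subset hq h2
    refine Finset.card_le_card_of_injOn (fun T => ∏ p ∈ φ T, p) ?_ ?_
    · intro T hT
      have hT1 := hsub T hT
      rw [Finset.mem_coe, Finset.mem_powerset] at hT
      have h2 : T ⊆ op n := hT.trans (Finset.erase_subset _ _)
      have h3 : q ∉ T := fun h => Finset.notMem_erase q _ (hT h)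
      rw [Finset.mem_coe, dv, Finset.mem_filter, Nat.mem_divisors]
      refine ⟨⟨prod_dvd hT1, by omega⟩, ?_⟩
      simp only [hφ]
      split_ifs with h4
      · exact h4
      · have h5 := (prod_mod h2).resolve_left h4
        rw [Finset.prod_insert h3, Nat.mul_mod, h5]
        rcases hq' with h6 | h6
        · rw [h6]
        · exfalso
          have h7 : ∀ T : Finset ℕ, T ⊆ op n → (∏ p ∈ T, p) % 6 = 1 := by
            intro T
            induction T using Finset.induction_on with
            | empty => intro _; simp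
            | @insert a s ha ih =>
              intro hs
              rw [Finset.prod_insert ha, Nat.mul_mod, ih (fun x hx => hs (Finset.mem_insert_of_mem hx)),
                h6 a (hs (Finset.mem_insert_self a s))]
          exact h4 (h7 T h2)
    · intro T hT T' hT' h
      have h2 := prod_inj (hsub T hT) (hsub T' hT') h
      rw [Finset.mem_coe, Finset.mem_powerset] at hT hT'
      have h3 : q ∉ T := fun h => Finset.notMem_erase q _ (hT h)
      have h4 : q ∉ T' := fun h => Finset.notMem_erase q _ (hT' h)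
      simp only [hφ] at h2
      split_ifs at h2 with h5 h6 h6
      · exact h2
      · exact absurd (h2 ▸ Finset.mem_insert_self q T') h3
      · exact absurd (h2 ▸ Finset.mem_insert_self q T) h4
      · have := congrArg (fun U => U.erase q) h2
        simpa [Finset.erase_insert h3, Finset.erase_insert h4] using this

theorem pow_le_c (n : ℕ) : 2 ^ ((op n).card - 1) ≤ c n + 1 :=
  (pow_le_card_dv n).trans (card_dv_le n)

end Pool.Agent.Helper64.Breadth
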