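import Mathlib

/-!
# A lower bound for the sum of the reciprocals of the primes (helper64)
-/

set_option autoImplicit false

namespace Pool.Agent.Helper64.Breadth

/-- `n ↦ 1 / n` as a monoid homomorphism -/
noncomputable def invHom : ℕ →* ℝ where
  toFun n := (n : ℝ)⁻¹
  map_one' := by simp
  map_mul' a b := by push_cast; rw [mul_inv]

theorem invHom_apply (n : ℕ) : invHom n = (n : ℝ)⁻¹ := rfl

theorem log_le_prod {N : ℕ} (hN : 1 ≤ N) :
    Real.log N ≤ ∏ p ∈ N.primesBelow, (1 - (p : ℝ)⁻¹)⁻¹ := by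
  have h1 := (EulerProduct.summable_and_hasSum_smoothNumbers_prod_primesBelow_geometric
    (f := invHom) (fun {p} hp => by
      rw [invHom_apply, norm_inv, Real.norm_natCast]
      exact inv_lt_one_of_one_lt₀ (by exact_mod_cast hp.one_lt)) N).2
  have h2 : ∑ n ∈ Finset.Ico 1 N, ((n : ℝ))⁻¹ ≤ ∏ p ∈ N.primesBelow, (1 - invHom p)⁻¹ := by
    classical
    have h3 := sum_le_hasSum (Finset.subtype (fun n => n ∈ N.smoothNumbers) (Finset.Ico 1 N))
      (fun i _ => by
        show 0 ≤ invHom i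
        rw [invHom_apply]; positivity) h1
    rw [Finset.sum_subtype_of_mem (fun n => invHom n) (p := fun n => n ∈ N.smoothNumbers)
      (fun x hx => by
        rw [Finset.mem_Ico] at hx
        exact Nat.mem_smoothNumbers_of_lt (by omega) hx.2)] at h3
    exact h3
  simp only [invHom_apply] at h2
  refine le_trans ?_ h2
  obtain ⟨m, rfl⟩ : ∃ m, N = m + 1 := ⟨N - 1, by omega⟩
  have h4 := log_add_one_le_harmonic m
  rw [harmonic] at h4
  push_cast at h4 ⊢
  refine h4.trans (le_of_eq ?_)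
  rw [Finset.sum_Ico_eq_sum_range]
  simp only [Nat.add_sub_cancel]
  refine Finset.sum_congr rfl fun i _ => ?_
  push_cast
  rw [add_comm]

theorem log_prod_le (N : ℕ) : Real.log (∏ p ∈ N.primesBelow, (1 - (p : ℝ)⁻¹)⁻¹) ≤
    (∑ p ∈ N.primesBelow, 1 / (p : ℝ)) + 1 := by
  have hp : ∀ p ∈ N.primesBelow, (2 : ℝ) ≤ p := by
    intro p hp
    exact_mod_cast (Nat.prime_of_mem_primesBelow hp).two_le
  rw [Real.log_prod (fun p h => by
    have := hp p h
    have h1 : (p : ℝ)⁻¹ < 1 := inv_lt_one_of_one_lt₀ (by linarith)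
    have : (1 - (p : ℝ)⁻¹) ≠ 0 := by linarith
    positivity)]
  have h1 : ∀ p ∈ N.primesBelow, Real.log ((1 - (p : ℝ)⁻¹)⁻¹) ≤
      1 / (p : ℝ) + (1 / ((p : ℝ) - 1) - 1 / p) := by
    intro p h
    have h2 := hp p h
    have h3 : (p : ℝ)⁻¹ < 1 := inv_lt_one_of_one_lt₀ (by linarith)
    have h4 : 0 < 1 - (p : ℝ)⁻¹ := by linarith
    rw [Real.log_inv]
    have h5 := Real.one_sub_inv_le_log_of_pos h4
    have h6 : (1 - (p : ℝ)⁻¹)⁻¹ = 1 + 1 / ((p : ℝ) - 1) := by
      have : (p : ℝ) - 1 ≠ 0 := by linarith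
      have : (p : ℝ) ≠ 0 := by linarith
      field_simp
      ring
    rw [h6] at h5
    linarith
  refine (Finset.sum_le_sum h1).trans ?_
  rw [Finset.sum_add_distrib]
  have h7 : ∑ p ∈ N.primesBelow, (1 / ((p : ℝ) - 1) - 1 / p) ≤
      ∑ m ∈ Finset.Ico 2 (N + 2), (1 / ((m : ℝ) - 1) - 1 / m) := by
    refine Finset.sum_le_sum_of_subset_of_nonneg ?_ ?_
    · intro p hp
      have h1 := (Nat.prime_of_mem_primesBelow hp).two_le
      have h2 := Nat.lt_of_mem_primesBelow hp
      rw [Finset.mem_Ico]; omega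
    · intro m hm _
      rw [Finset.mem_Ico] at hm
      have : (2 : ℝ) ≤ m := by exact_mod_cast hm.1
      rw [sub_nonneg]
      exact one_div_le_one_div_of_le (by linarith) (by linarith)
  have h8 : ∀ k : ℕ, ∑ m ∈ Finset.Ico 2 (k + 2), (1 / ((m : ℝ) - 1) - 1 / m) =
      1 - 1 / ((k : ℝ) + 1) := by
    intro k
    induction k with
    | zero => simp
    | succ k ih =>
      rw [Finset.sum_Ico_succ_top (by omega), ih]
      push_cast
      have : (k : ℝ) + 1 ≠ 0 := by positivity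
      have : (k : ℝ) + 2 ≠ 0 := by positivity
      have e1 : (k : ℝ) + 2 - 1 = k + 1 := by ring
      have e2 : (k : ℝ) + 1 + 1 = k + 2 := by ring
      rw [e1, e2]
      ring
  rw [h8] at h7
  have h9 : (0 : ℝ) ≤ 1 / ((N : ℝ) + 1) := by positivity
  linarith

theorem loglog_le {N : ℕ} (hN : 3 ≤ N) :
    Real.log (Real.log N) ≤ (∑ p ∈ N.primesBelow, 1 / (p : ℝ)) + 1 := by
  have h1 : (0 : ℝ) < Real.log N := Real.log_pos (by exact_mod_cast (by omega : 1 < N))
  exact (Real.log_le_log h1 (log_le_prod (by omega))).trans (log_prod_le N)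

/-- the primes from `5` to `z` -/
def Qs (z : ℕ) : Finset ℕ := (z.primesBelow.erase 2).erase 3

theorem mem_Qs {z p : ℕ} (h : p ∈ Qs z) : p.Prime ∧ 5 ≤ p := by
  rw [Qs, Finset.mem_erase, Finset.mem_erase] at h
  have h1 := Nat.prime_of_mem_primesBelow h.2.2
  refine ⟨h1, ?_⟩
  have h2 := h1.two_le
  by_contra h3
  have : p = 4 := by omega
  subst this
  revert h1; norm_num

theorem card_Qs (z : ℕ) : (Qs z).card ≤ z := by
  refine (Finset.card_le_card ((Finset.erase_subset _ _).trans (Finset.erase_subset _ _))).trans ?_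
  refine (Finset.card_le_card (t := Finset.range z) ?_).trans (Finset.card_range z).le
  intro p hp
  exact Finset.mem_range.2 (Nat.lt_of_mem_primesBelow hp)

theorem sum_Qs {z : ℕ} (hz : 3 ≤ z) :
    Real.log (Real.log z) - 2 ≤ ∑ p ∈ Qs z, 1 / (p : ℝ) := by
  have h1 := loglog_le hz
  have e1 : ∀ (s : Finset ℕ) (a : ℕ), 2 ≤ a → ∑ p ∈ s, 1 / (p : ℝ) ≤
      (∑ p ∈ s.erase a, 1 / (p : ℝ)) + 1 / a := by
    intro s a ha
    by_cases h : a ∈ s
    · rw [← Finset.add_sum_erase s _ h]; linarith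
    · rw [Finset.erase_eq_of_notMem h]
      have : (0 : ℝ) ≤ 1 / a := by positivity
      linarith
  have h2 := e1 z.primesBelow 2 le_rfl
  have h3 := e1 (z.primesBelow.erase 2) 3 (by norm_num)
  push_cast at h2 h3
  rw [Qs]
  linarith

end Pool.Agent.Helper64.Breadth
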