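import Pool.Agent.Helper64.Breadth.Turan
import Pool.Agent.Helper64.Breadth.Mertens

/-!
# MP_5de915_nt: almost all rows (helper64)
-/

set_option autoImplicit false

open Filter Topology

namespace Pool.Agent.Helper64.Breadth

theorem few_real {Q : Finset ℕ} (hQ : ∀ p ∈ Q, p.Prime ∧ 5 ≤ p) {t : ℝ}
    (ht : t < ∑ p ∈ Q, 1 / (p : ℝ)) (N : ℕ) :
    (((Finset.range N).filter (fun n => ((op n).card : ℝ) < t)).card : ℝ) *
      ((∑ p ∈ Q, 1 / (p : ℝ)) - t) ^ 2 ≤
      N * (∑ p ∈ Q, 1 / (p : ℝ)) + 4 * (Q.card : ℝ) ^ 2 := by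
  set μ : ℝ := ∑ p ∈ Q, 1 / (p : ℝ) with hμd
  have h1 := second_moment hQ N
  rw [← hμd] at h1
  have h2 : ∑ n ∈ (Finset.range N).filter (fun n => ((op n).card : ℝ) < t), (μ - t) ^ 2 ≤
      ∑ n ∈ Finset.range N, ((∑ p ∈ Q, ind p n) - μ) ^ 2 := by
    refine (Finset.sum_le_sum fun n hn => ?_).trans
      (Finset.sum_le_sum_of_subset_of_nonneg (Finset.filter_subset _ _) fun _ _ _ => sq_nonneg _)
    rw [Finset.mem_filter] at hn
    have h3 := sum_ind_le hQ n
    nlinarith
  rw [Finset.sum_const, nsmul_eq_mul] at h2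
  exact h2.trans h1

/-- the sum of `1 / p` over the primes between `5` and the square root of `N` -/
noncomputable def mu (N : ℕ) : ℝ := ∑ p ∈ Qs (Nat.sqrt N), 1 / (p : ℝ)

theorem mu_lower {N : ℕ} (hN : 16 ≤ N) :
    Real.log (Real.log N) - (2 + Real.log 4) ≤ mu N := by
  set z := Nat.sqrt N with hz
  have hz4 : 4 ≤ z := by
    rw [hz, Nat.le_sqrt]; omega
  have h1 : N ≤ z * z + z + z := Nat.sqrt_le_add N
  have h2 : N ≤ z ^ 4 := by
    have e1 : z ^ 4 = z * z * (z * z) := by ring
    have e2 : 4 * z ≤ z * z := Nat.mul_le_mul_right z hz4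
    have e3 : 16 ≤ z * z := by nlinarith
    have e4 : 16 * (z * z) ≤ z * z * (z * z) := Nat.mul_le_mul_right _ e3
    omega
  have h3 : Real.log N ≤ 4 * Real.log z := by
    have : Real.log N ≤ Real.log ((z : ℝ) ^ 4) :=
      Real.log_le_log (by exact_mod_cast (by omega : 0 < N)) (by exact_mod_cast h2)
    rwa [Real.log_pow] at this
  have h4 : 0 < Real.log N := Real.log_pos (by exact_mod_cast (by omega : 1 < N))
  have h5 : Real.log (Real.log N) ≤ Real.log 4 + Real.log (Real.log z) := by
    rw [← Real.log_mul (by norm_num) (by linarith)]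
    exact Real.log_le_log h4 h3
  have h6 := sum_Qs (z := z) (by omega)
  rw [mu]
  linarith

theorem tendsto_mu : Tendsto mu atTop atTop := by
  have h1 : Tendsto (fun N : ℕ => Real.log (Real.log N) - (2 + Real.log 4)) atTop atTop := by
    refine tendsto_atTop_add_const_right _ _ ?_
    exact Real.tendsto_log_atTop.comp (Real.tendsto_log_atTop.comp tendsto_natCast_atTop_atTop)
  refine tendsto_atTop_mono' _ ?_ h1
  filter_upwards [eventually_ge_atTop 16] with N hN
  exact mu_lower hN

theorem density_op_real {ε : ℝ} (hε : 0 < ε) :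
    Tendsto (fun N : ℕ => (((Finset.range N).filter
      (fun n => ((op n).card : ℝ) < (1 - ε) * mu N)).card : ℝ) / N) atTop (𝓝 0) := by
  have h1 : Tendsto (fun N : ℕ => 5 / (ε ^ 2 * mu N)) atTop (𝓝 0) :=
    Tendsto.const_div_atTop (Tendsto.const_mul_atTop (by positivity) tendsto_mu) 5
  refine squeeze_zero' (Eventually.of_forall fun N => by positivity) ?_ h1
  filter_upwards [tendsto_mu.eventually_ge_atTop 1, eventually_ge_atTop 1] with N hμ hN
  have h2 := few_real (Q := Qs (Nat.sqrt N)) (fun p hp => mem_Qs hp) (t := (1 - ε) * mu N)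
    (show (1 - ε) * mu N < mu N by nlinarith) N
  have e1 : (∑ p ∈ Qs (Nat.sqrt N), 1 / (p : ℝ)) = mu N := rfl
  rw [e1] at h2
  have h3 : ((Qs (Nat.sqrt N)).card : ℝ) ^ 2 ≤ N := by
    have h4 : (Qs (Nat.sqrt N)).card ^ 2 ≤ N := by
      have := card_Qs (Nat.sqrt N)
      have h5 := Nat.sqrt_le N
      nlinarith
    exact_mod_cast h4
  have hN0 : (0 : ℝ) < N := by exact_mod_cast hN
  have hμ0 : 0 < mu N := by linarith
  rw [div_le_div_iff₀ hN0 (by positivity)]
  have h6 : (mu N - (1 - ε) * mu N) ^ 2 = ε ^ 2 * mu N * mu N := by ring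
  rw [h6] at h2
  have h7 : (((Finset.range N).filter
      (fun n => ((op n).card : ℝ) < (1 - ε) * mu N)).card : ℝ) * (ε ^ 2 * mu N) * mu N ≤
      5 * N * mu N := by
    have : (N : ℝ) ≤ N * mu N := by nlinarith
    nlinarith
  exact le_of_mul_le_mul_right h7 hμ0

theorem almost_all {δ : ℝ} (hδ : δ < Real.log 2) :
    Tendsto (fun N : ℕ => (((Finset.range N).filter
      (fun n => (c n : ℝ) < Real.log n ^ δ)).card : ℝ) / N) atTop (𝓝 0) := by
  have hlog2 : 0 < Real.log 2 := Real.log_pos (by norm_num)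
  set δ' : ℝ := max δ 0 with hδ'
  have hδ0 : 0 ≤ δ' := le_max_right _ _
  have hδ1 : δ' < Real.log 2 := max_lt hδ hlog2
  set ε : ℝ := (Real.log 2 - δ') / (2 * Real.log 2) with hε
  have hε0 : 0 < ε := by
    rw [hε]; apply div_pos <;> linarith
  have hε1 : (1 - ε) * Real.log 2 = (Real.log 2 + δ') / 2 := by
    rw [hε]; field_simp; ring
  have hε2 : 0 < 1 - ε := by
    have : 0 < (1 - ε) * Real.log 2 := by rw [hε1]; linarith
    exact (mul_pos_iff_of_pos_right hlog2).1 this
  set C : ℝ := (Real.log 2 + δ') / 2 * (2 + Real.log 4) + Real.log 2 with hC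
  set η : ℝ := (Real.log 2 - δ') / 2 with hη
  have hη0 : 0 < η := by rw [hη]; linarith
  have hlogN : Tendsto (fun N : ℕ => Real.log (N : ℝ)) atTop atTop :=
    Real.tendsto_log_atTop.comp tendsto_natCast_atTop_atTop
  have h1 : Tendsto (fun N : ℕ => (Real.log (N : ℝ)) ^ η) atTop atTop :=
    (tendsto_rpow_atTop hη0).comp hlogN
  have hlim : Tendsto (fun N : ℕ => 3 / (N : ℝ) + (((Finset.range N).filter
      (fun n => ((op n).card : ℝ) < (1 - ε) * mu N)).card : ℝ) / N) atTop (𝓝 0) := by
    have := (tendsto_const_div_atTop_nhds_zero_nat (3 : ℝ)).add (density_op_real hε0)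
    simpa using this
  refine squeeze_zero' (Eventually.of_forall fun N => by positivity) ?_ hlim
  filter_upwards [h1.eventually_ge_atTop (2 * Real.exp C), eventually_ge_atTop 16,
    hlogN.eventually_ge_atTop 1] with N hN1 hN2 hN3
  rw [← add_div]
  refine div_le_div_of_nonneg_right ?_ (Nat.cast_nonneg _)
  have hsub : (Finset.range N).filter (fun n => (c n : ℝ) < Real.log n ^ δ) ⊆
      Finset.range 3 ∪ (Finset.range N).filter
        (fun n => ((op n).card : ℝ) < (1 - ε) * mu N) := by
    intro n hn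
    rw [Finset.mem_filter, Finset.mem_range] at hn
    obtain ⟨hn1, hn2⟩ := hn
    rw [Finset.mem_union, Finset.mem_range, Finset.mem_filter, Finset.mem_range]
    by_contra hcon
    push Not at hcon
    obtain ⟨hn3, hcon⟩ := hcon
    have hω := hcon hn1
    -- lower bound for `c n`
    have k1 : (2 : ℝ) ^ ((op n).card - 1) ≤ (c n : ℝ) + 1 := by exact_mod_cast pow_le_c n
    have k2 : Real.exp (Real.log 2 * ((1 - ε) * mu N - 1)) ≤ (2 : ℝ) ^ ((op n).card - 1) := by
      rw [← Real.rpow_natCast, Real.rpow_def_of_pos (by norm_num)]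
      refine Real.exp_le_exp.2 (mul_le_mul_of_nonneg_left ?_ hlog2.le)
      have : ((op n).card : ℝ) - 1 ≤ (((op n).card - 1 : ℕ) : ℝ) := by
        have h9 : (op n).card ≤ (op n).card - 1 + 1 := by omega
        have : ((op n).card : ℝ) ≤ (((op n).card - 1 : ℕ) : ℝ) + 1 := by exact_mod_cast h9
        linarith
      linarith
    have k3 := mu_lower hN2
    have k4 : (Real.log 2 + δ') / 2 * Real.log (Real.log N) - C ≤
        Real.log 2 * ((1 - ε) * mu N - 1) := by
      have e1 : Real.log 2 * ((1 - ε) * mu N - 1) =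
          (Real.log 2 + δ') / 2 * mu N - Real.log 2 := by rw [← hε1]; ring
      rw [e1, hC]
      have : 0 ≤ (Real.log 2 + δ') / 2 := by linarith
      nlinarith [mul_le_mul_of_nonneg_left k3 this]
    have hL0 : 0 < Real.log N := by linarith
    have k5 : Real.exp ((Real.log 2 + δ') / 2 * Real.log (Real.log N) - C) =
        Real.log N ^ δ' * Real.log N ^ η / Real.exp C := by
      rw [Real.exp_sub, ← Real.rpow_add hL0]
      congr 1
      rw [Real.rpow_def_of_pos hL0]
      congr 1
      rw [hη]; ring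
    have k6 : 2 * Real.log N ^ δ' ≤ Real.log N ^ δ' * Real.log N ^ η / Real.exp C := by
      rw [le_div_iff₀ (Real.exp_pos _)]
      have : 0 ≤ Real.log N ^ δ' := Real.rpow_nonneg hL0.le _
      nlinarith [mul_le_mul_of_nonneg_left hN1 this]
    have k7 : 2 * Real.log N ^ δ' ≤ (c n : ℝ) + 1 := by
      rw [← k5] at k6
      exact k6.trans ((Real.exp_le_exp.2 k4).trans (k2.trans k1))
    have k8 : 1 ≤ Real.log N ^ δ' := Real.one_le_rpow hN3 hδ0
    have hlogn : 1 ≤ Real.log n := by
      rw [Real.le_log_iff_exp_le (by exact_mod_cast (by omega : 0 < n))]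
      have h10 : (3 : ℝ) ≤ n := by exact_mod_cast hn3
      have := Real.exp_one_lt_d9
      linarith
    have k9 : Real.log n ^ δ ≤ Real.log N ^ δ' := by
      refine (Real.rpow_le_rpow_of_exponent_le hlogn (le_max_left δ 0)).trans ?_
      refine Real.rpow_le_rpow (by linarith) ?_ hδ0
      exact Real.log_le_log (by exact_mod_cast (by omega : 0 < n)) (by exact_mod_cast hn1.le)
    linarith
  have h2 := (Finset.card_le_card hsub).trans (Finset.card_union_le _ _)
  rw [Finset.card_range] at h2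
  exact_mod_cast h2

end Pool.Agent.Helper64.Breadth
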