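import Pool.Agent.Helper64.Breadth.Defs

/-!
# MP_5de915_nt: almost all `3 n + 2` have many odd prime factors (helper64)
-/

set_option autoImplicit false

open Filter Topology

namespace Pool.Agent.Helper64.Breadth

/-- indicator of `m ∣ 3 n + 2` -/
noncomputable def ind (m n : ℕ) : ℝ := if m ∣ 3 * n + 2 then 1 else 0

theorem sum_ind {m : ℕ} (h3 : m % 3 ≠ 0) (N : ℕ) :
    |(∑ n ∈ Finset.range N, ind m n) - (N : ℝ) / m| ≤ 1 := by
  have hm : 0 < m := by
    rcases Nat.eq_zero_or_pos m with h | h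
    · subst h; simp at h3
    · exact h
  obtain ⟨v, s, hv⟩ : ∃ v s : ℕ, 3 * v + 2 = m * s := by
    rcases (by omega : m % 3 = 1 ∨ m % 3 = 2) with h | h
    · exact ⟨2 * (m / 3), 2, by omega⟩
    · exact ⟨m / 3, 1, by omega⟩
  have hco : IsCoprime (m : ℤ) 3 := by
    rw [Int.isCoprime_iff_gcd_eq_one]
    have : Nat.Coprime m 3 := by
      rw [Nat.coprime_comm, Nat.Prime.coprime_iff_not_dvd Nat.prime_three]
      intro h
      exact h3 (Nat.mod_eq_zero_of_dvd h)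
    exact_mod_cast this
  have key : ∀ n : ℕ, m ∣ 3 * n + 2 ↔ n ≡ v [MOD m] := by
    intro n
    rw [Nat.ModEq.comm, Nat.modEq_iff_dvd]
    constructor
    · intro h
      have h1 : (m : ℤ) ∣ 3 * ((n : ℤ) - v) := by
        have h2 : (m : ℤ) ∣ 3 * (n : ℤ) + 2 := by exact_mod_cast h
        have h4 : (m : ℤ) ∣ 3 * (v : ℤ) + 2 := ⟨s, by exact_mod_cast hv⟩
        have h6 : 3 * ((n : ℤ) - v) = 3 * n + 2 - (3 * v + 2) := by ring
        rw [h6]
        exact dvd_sub h2 h4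
      exact hco.dvd_of_dvd_mul_left h1
    · intro h
      have h4 : (m : ℤ) ∣ 3 * (v : ℤ) + 2 := ⟨s, by exact_mod_cast hv⟩
      have h5 : (m : ℤ) ∣ 3 * (n : ℤ) + 2 := by
        have h6 : 3 * (n : ℤ) + 2 = 3 * (n - v) + (3 * v + 2) := by ring
        rw [h6]
        exact dvd_add (h.mul_left 3) h4
      exact_mod_cast h5
  have e1 : ∑ n ∈ Finset.range N, ind m n =
      (((Finset.range N).filter (fun n => n ≡ v [MOD m])).card : ℝ) := by
    rw [Finset.card_filter]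
    push_cast
    refine Finset.sum_congr rfl fun n _ => ?_
    simp only [ind, key n]
  rw [e1, ← Nat.count_eq_card_filter_range, Nat.count_modEq_card _ hm]
  have h1 : ((N / m : ℕ) : ℝ) ≤ (N : ℝ) / m := Nat.cast_div_le
  have h2 : (N : ℝ) / m < ((N / m : ℕ) : ℝ) + 1 := by
    rw [div_lt_iff₀ (by exact_mod_cast hm)]
    have h5 := Nat.div_add_mod N m
    have h6 := Nat.mod_lt N hm
    have h7 : N < (N / m + 1) * m := by
      rw [add_mul, mul_comm (N / m) m]; omega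
    exact_mod_cast h7
  rw [abs_le]
  split_ifs <;> push_cast <;> constructor <;> linarith

theorem ind_mul {p q : ℕ} (hp : p.Prime) (hq : q.Prime) (hpq : p ≠ q) (n : ℕ) :
    ind p n * ind q n = ind (p * q) n := by
  have h : p * q ∣ 3 * n + 2 ↔ p ∣ 3 * n + 2 ∧ q ∣ 3 * n + 2 := by
    constructor
    · intro h
      exact ⟨(dvd_mul_right _ _).trans h, (dvd_mul_left _ _).trans h⟩
    · rintro ⟨h1, h2⟩
      exact ((Nat.coprime_primes hp hq).2 hpq).mul_dvd_of_dvd_of_dvd h1 h2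
  simp only [ind, h]
  by_cases h1 : p ∣ 3 * n + 2 <;> by_cases h2 : q ∣ 3 * n + 2 <;> simp [h1, h2]

theorem ind_sq (p n : ℕ) : ind p n * ind p n = ind p n := by
  simp only [ind]; split_ifs <;> simp

theorem cov_ne {p q : ℕ} (hp : p.Prime) (hq : q.Prime) (hp5 : 5 ≤ p) (hq5 : 5 ≤ q) (hpq : p ≠ q)
    (N : ℕ) : ∑ n ∈ Finset.range N, (ind p n - 1 / p) * (ind q n - 1 / q) ≤ 3 := by
  have hp3 : p % 3 ≠ 0 := by
    intro h
    have := (Nat.prime_dvd_prime_iff_eq Nat.prime_three hp).1 (Nat.dvd_of_mod_eq_zero h)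
    omega
  have hq3 : q % 3 ≠ 0 := by
    intro h
    have := (Nat.prime_dvd_prime_iff_eq Nat.prime_three hq).1 (Nat.dvd_of_mod_eq_zero h)
    omega
  have hpq3 : (p * q) % 3 ≠ 0 := by
    intro h
    rcases (Nat.prime_three.dvd_mul).1 (Nat.dvd_of_mod_eq_zero h) with h | h
    · exact hp3 (Nat.mod_eq_zero_of_dvd h)
    · exact hq3 (Nat.mod_eq_zero_of_dvd h)
  have hp0 : (5 : ℝ) ≤ p := by exact_mod_cast hp5
  have hq0 : (5 : ℝ) ≤ q := by exact_mod_cast hq5
  have e : ∑ n ∈ Finset.range N, (ind p n - 1 / p) * (ind q n - 1 / q) =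
      ((∑ n ∈ Finset.range N, ind (p * q) n) - (N : ℝ) / ((p * q : ℕ) : ℝ)) -
        ((∑ n ∈ Finset.range N, ind p n) - (N : ℝ) / p) / q -
        ((∑ n ∈ Finset.range N, ind q n) - (N : ℝ) / q) / p := by
    have e1 : ∀ n, (ind p n - 1 / (p : ℝ)) * (ind q n - 1 / q) =
        ind (p * q) n - ind p n * (1 / q) - ind q n * (1 / p) + 1 / (p * q) := by
      intro n
      rw [← ind_mul hp hq hpq n]
      field_simp
      ring
    simp only [e1]
    rw [Finset.sum_add_distrib, Finset.sum_sub_distrib, Finset.sum_sub_distrib, ← Finset.sum_mul,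
      ← Finset.sum_mul, Finset.sum_const, Finset.card_range, nsmul_eq_mul]
    push_cast
    field_simp
    ring
  rw [e]
  have h1 := (abs_le.1 (sum_ind hpq3 N)).2
  have h2 := (abs_le.1 (sum_ind hp3 N)).1
  have h3 := (abs_le.1 (sum_ind hq3 N)).1
  have h4 : -1 ≤ ((∑ n ∈ Finset.range N, ind p n) - (N : ℝ) / p) / q := by
    rw [le_div_iff₀ (by linarith)]; linarith
  have h5 : -1 ≤ ((∑ n ∈ Finset.range N, ind q n) - (N : ℝ) / q) / p := by
    rw [le_div_iff₀ (by linarith)]; linarith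
  linarith

theorem cov_eq {p : ℕ} (hp : p.Prime) (hp5 : 5 ≤ p) (N : ℕ) :
    ∑ n ∈ Finset.range N, (ind p n - 1 / p) * (ind p n - 1 / p) ≤ N * (1 / (p : ℝ)) + 1 := by
  have hp3 : p % 3 ≠ 0 := by
    intro h
    have := (Nat.prime_dvd_prime_iff_eq Nat.prime_three hp).1 (Nat.dvd_of_mod_eq_zero h)
    omega
  have hp0 : (5 : ℝ) ≤ p := by exact_mod_cast hp5
  have e : ∑ n ∈ Finset.range N, (ind p n - 1 / (p : ℝ)) * (ind p n - 1 / p) =
      (∑ n ∈ Finset.range N, ind p n) * (1 - 2 / p) + N * (1 / (p : ℝ)) * (1 / p) := by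
    have e1 : ∀ n, (ind p n - 1 / (p : ℝ)) * (ind p n - 1 / p) =
        ind p n * (1 - 2 / p) + (1 / p) * (1 / p) := by
      intro n
      linear_combination ind_sq p n
    simp only [e1]
    rw [Finset.sum_add_distrib, ← Finset.sum_mul, Finset.sum_const, Finset.card_range,
      nsmul_eq_mul]
    ring
  rw [e]
  have h1 := (abs_le.1 (sum_ind hp3 N)).2
  have h2 : (0 : ℝ) ≤ 1 - 2 / p := by
    rw [sub_nonneg, div_le_one (by linarith)]; linarith
  have h3 : (0 : ℝ) < 1 / p := by positivity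
  have h4 : (1 : ℝ) / p ≤ 1 := by
    rw [div_le_one (by linarith)]; linarith
  have h5 : (0 : ℝ) ≤ N * (1 / (p : ℝ)) := by positivity
  have h6 : (∑ n ∈ Finset.range N, ind p n) ≤ N * (1 / (p : ℝ)) + 1 := by
    have : (N : ℝ) / p = N * (1 / p) := by ring
    linarith
  calc _ ≤ (N * (1 / (p : ℝ)) + 1) * (1 - 2 / p) + N * (1 / (p : ℝ)) * (1 / p) := by gcongr
    _ = N * (1 / (p : ℝ)) + 1 - N * (1 / (p : ℝ)) * (1 / p) - 2 * (1 / p) := by ring
    _ ≤ _ := by
        have := mul_nonneg h5 h3.le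
        linarith

/-- the second moment -/
theorem second_moment {Q : Finset ℕ} (hQ : ∀ p ∈ Q, p.Prime ∧ 5 ≤ p) (N : ℕ) :
    ∑ n ∈ Finset.range N, ((∑ p ∈ Q, ind p n) - ∑ p ∈ Q, 1 / (p : ℝ)) ^ 2 ≤
      N * (∑ p ∈ Q, 1 / (p : ℝ)) + 4 * (Q.card : ℝ) ^ 2 := by
  have e : ∀ n, ((∑ p ∈ Q, ind p n) - ∑ p ∈ Q, 1 / (p : ℝ)) ^ 2 =
      ∑ p ∈ Q, ∑ q ∈ Q, (ind p n - 1 / p) * (ind q n - 1 / q) := by
    intro n
    rw [← Finset.sum_sub_distrib, sq, Finset.sum_mul_sum]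
  simp only [e]
  rw [Finset.sum_comm]
  simp only [Finset.sum_comm (s := Finset.range N) (t := Q)]
  have h1 : ∀ p ∈ Q, ∑ q ∈ Q, ∑ n ∈ Finset.range N, (ind p n - 1 / (p : ℝ)) * (ind q n - 1 / q) ≤
      N * (1 / (p : ℝ)) + 1 + 3 * (Q.card : ℝ) := by
    intro p hp
    rw [← Finset.add_sum_erase _ _ hp]
    have h2 := cov_eq (hQ p hp).1 (hQ p hp).2 N
    have h3 : ∑ q ∈ Q.erase p, ∑ n ∈ Finset.range N,
        (ind p n - 1 / (p : ℝ)) * (ind q n - 1 / q) ≤ ∑ q ∈ Q.erase p, (3 : ℝ) := by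
      refine Finset.sum_le_sum fun q hq => ?_
      rw [Finset.mem_erase] at hq
      exact cov_ne (hQ p hp).1 (hQ q hq.2).1 (hQ p hp).2 (hQ q hq.2).2 (Ne.symm hq.1) N
    rw [Finset.sum_const, nsmul_eq_mul] at h3
    have h4 : ((Q.erase p).card : ℝ) ≤ Q.card := by
      exact_mod_cast Finset.card_le_card (Finset.erase_subset _ _)
    linarith
  refine (Finset.sum_le_sum h1).trans ?_
  rw [Finset.sum_add_distrib, Finset.sum_add_distrib, ← Finset.mul_sum, Finset.sum_const,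
    Finset.sum_const, nsmul_eq_mul, nsmul_eq_mul]
  have h5 : (Q.card : ℝ) ≤ (Q.card : ℝ) ^ 2 := by
    have : Q.card ≤ Q.card ^ 2 := Nat.le_self_pow (by norm_num) _
    exact_mod_cast this
  nlinarith

theorem sum_ind_le {Q : Finset ℕ} (hQ : ∀ p ∈ Q, p.Prime ∧ 5 ≤ p) (n : ℕ) :
    ∑ p ∈ Q, ind p n ≤ ((op n).card : ℝ) := by
  have e : ∑ p ∈ Q, ind p n = ((Q.filter (fun p => p ∣ 3 * n + 2)).card : ℝ) := by
    rw [Finset.card_filter]; push_cast
    exact Finset.sum_congr rfl fun p _ => rfl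
  rw [e]
  have : Q.filter (fun p => p ∣ 3 * n + 2) ⊆ op n := by
    intro p hp
    rw [Finset.mem_filter] at hp
    have := hQ p hp.1
    exact mem_op.2 ⟨by omega, this.1, hp.2⟩
  exact_mod_cast Finset.card_le_card this

/-- Chebyshev -/
theorem few {Q : Finset ℕ} (hQ : ∀ p ∈ Q, p.Prime ∧ 5 ≤ p) {k : ℕ} (hk : 1 ≤ k)
    (hμ : 2 * (k : ℝ) ≤ ∑ p ∈ Q, 1 / (p : ℝ)) (N : ℕ) :
    (((Finset.range N).filter (fun n => (op n).card < k)).card : ℝ) ≤
      4 * N / (∑ p ∈ Q, 1 / (p : ℝ)) + 16 * (Q.card : ℝ) ^ 2 := by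
  set μ : ℝ := ∑ p ∈ Q, 1 / (p : ℝ) with hμd
  have hk1 : (1 : ℝ) ≤ k := by exact_mod_cast hk
  have hμ0 : 0 < μ := by linarith
  have h1 := second_moment hQ N
  rw [← hμd] at h1
  have h2 : ∑ n ∈ (Finset.range N).filter (fun n => (op n).card < k), (μ / 2) ^ 2 ≤
      ∑ n ∈ Finset.range N, ((∑ p ∈ Q, ind p n) - μ) ^ 2 := by
    refine (Finset.sum_le_sum fun n hn => ?_).trans
      (Finset.sum_le_sum_of_subset_of_nonneg (Finset.filter_subset _ _) fun _ _ _ => sq_nonneg _)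
    rw [Finset.mem_filter] at hn
    have h3 := sum_ind_le hQ n
    have h4 : ((op n).card : ℝ) < k := by exact_mod_cast hn.2
    nlinarith
  rw [Finset.sum_const, nsmul_eq_mul] at h2
  have h3 : (((Finset.range N).filter (fun n => (op n).card < k)).card : ℝ) * (μ / 2) ^ 2 ≤
      N * μ + 4 * (Q.card : ℝ) ^ 2 := h2.trans h1
  have h4 : (((Finset.range N).filter (fun n => (op n).card < k)).card : ℝ) ≤
      (N * μ + 4 * (Q.card : ℝ) ^ 2) / (μ / 2) ^ 2 := by
    rw [le_div_iff₀ (by positivity)]; exact h3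
  refine h4.trans ?_
  have h5 : (N * μ + 4 * (Q.card : ℝ) ^ 2) / (μ / 2) ^ 2 =
      4 * N / μ + 16 * (Q.card : ℝ) ^ 2 / μ ^ 2 := by
    field_simp
    ring
  rw [h5]
  have h6 : 1 ≤ μ ^ 2 := by nlinarith
  have h7 : 16 * (Q.card : ℝ) ^ 2 / μ ^ 2 ≤ 16 * (Q.card : ℝ) ^ 2 :=
    div_le_self (by positivity) h6
  linarith

theorem exists_Q (B : ℝ) : ∃ Q : Finset ℕ, (∀ p ∈ Q, p.Prime ∧ 5 ≤ p) ∧
    B ≤ ∑ p ∈ Q, 1 / (p : ℝ) := by
  have h1 : ∀ i, 0 ≤ Set.indicator {p : ℕ | p.Prime} (fun n : ℕ => (1 : ℝ) / n) i := by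
    intro i
    exact Set.indicator_nonneg (fun n _ => by positivity) i
  have h2 := (not_summable_iff_tendsto_nat_atTop_of_nonneg h1).1 not_summable_one_div_on_primes
  obtain ⟨M, hM⟩ := (h2.eventually_ge_atTop (B + 5)).exists
  refine ⟨(Finset.range M).filter (fun p => p.Prime ∧ 5 ≤ p), ?_, ?_⟩
  · intro p hp
    exact (Finset.mem_filter.1 hp).2
  · have h3 : ∑ i ∈ Finset.range M, Set.indicator {p : ℕ | p.Prime} (fun n : ℕ => (1 : ℝ) / n) i ≤
        ∑ p ∈ (Finset.range M).filter (fun p => p.Prime ∧ 5 ≤ p), 1 / (p : ℝ) +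
          ∑ i ∈ (Finset.range M).filter (fun p => ¬ (p.Prime ∧ 5 ≤ p)), 
            Set.indicator {p : ℕ | p.Prime} (fun n : ℕ => (1 : ℝ) / n) i := by
      rw [← Finset.sum_filter_add_sum_filter_not (Finset.range M) (fun p => p.Prime ∧ 5 ≤ p)]
      refine add_le_add (le_of_eq (Finset.sum_congr rfl fun p hp => ?_)) le_rfl
      exact Set.indicator_of_mem (show p ∈ {p : ℕ | p.Prime} from (Finset.mem_filter.1 hp).2.1) _
    have h4 : ∑ i ∈ (Finset.range M).filter (fun p => ¬ (p.Prime ∧ 5 ≤ p)),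
        Set.indicator {p : ℕ | p.Prime} (fun n : ℕ => (1 : ℝ) / n) i ≤
          ∑ i ∈ Finset.range 5, (1 : ℝ) := by
      rw [← Finset.sum_filter_add_sum_filter_not ((Finset.range M).filter _) (fun p => p < 5)]
      have h5 : ∑ i ∈ ((Finset.range M).filter (fun p => ¬ (p.Prime ∧ 5 ≤ p))).filter
          (fun p => ¬ p < 5), Set.indicator {p : ℕ | p.Prime} (fun n : ℕ => (1 : ℝ) / n) i = 0 := by
        refine Finset.sum_eq_zero fun i hi => Set.indicator_of_notMem ?_ _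
        rw [Finset.mem_filter, Finset.mem_filter] at hi
        intro h6
        exact hi.1.2 ⟨h6, by omega⟩
      rw [h5, add_zero]
      refine (Finset.sum_le_sum (g := fun _ => (1 : ℝ)) fun i hi => ?_).trans
        (Finset.sum_le_sum_of_subset_of_nonneg ?_ fun _ _ _ => zero_le_one)
      · by_cases h6 : i ∈ {p : ℕ | p.Prime}
        · rw [Set.indicator_of_mem h6]
          have : (1 : ℝ) ≤ i := by exact_mod_cast (Nat.Prime.one_lt h6).le
          rw [div_le_one (by linarith)]; exact this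
        · rw [Set.indicator_of_notMem h6]; exact zero_le_one
      · intro i hi
        rw [Finset.mem_filter] at hi
        exact Finset.mem_range.2 hi.2
    rw [Finset.sum_const, Finset.card_range, nsmul_eq_mul] at h4
    push_cast at h4
    linarith

/-- almost all `3 n + 2` have at least `k` odd prime factors -/
theorem density_op {k : ℕ} (hk : 1 ≤ k) :
    Tendsto (fun N : ℕ => (((Finset.range N).filter (fun n => (op n).card < k)).card : ℝ) / N)
      atTop (𝓝 0) := by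
  rw [Metric.tendsto_atTop]
  intro ε hε
  obtain ⟨Q, hQ, hB⟩ := exists_Q (2 * k + 8 / ε)
  have hk1 : (1 : ℝ) ≤ k := by exact_mod_cast hk
  have h8 : 0 < 8 / ε := by positivity
  have h1 := few hQ hk (by linarith)
  set μ : ℝ := ∑ p ∈ Q, 1 / (p : ℝ)
  have hμ : 0 < μ := by linarith
  obtain ⟨N0, hN0⟩ := exists_nat_gt (16 * (Q.card : ℝ) ^ 2 / (ε / 2))
  refine ⟨N0 + 1, fun N hN => ?_⟩
  have hN1 : (N0 : ℝ) + 1 ≤ N := by exact_mod_cast hN
  have hNpos : (0 : ℝ) < N := by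
    have : (0 : ℝ) ≤ N0 := Nat.cast_nonneg _
    linarith
  rw [Real.dist_eq, sub_zero, abs_of_nonneg (by positivity), div_lt_iff₀ hNpos]
  refine (h1 N).trans_lt ?_
  have h2 : 4 * (N : ℝ) / μ < ε / 2 * N := by
    rw [div_lt_iff₀ hμ]
    have h3 : 8 / ε < μ := by linarith
    rw [div_lt_iff₀ hε] at h3
    nlinarith
  have h3 : 16 * (Q.card : ℝ) ^ 2 < ε / 2 * N := by
    rw [div_lt_iff₀ (by positivity)] at hN0
    nlinarith
  linarith

end Pool.Agent.Helper64.Breadth
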